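import Mathlib
import Pool.Graph.R_pool_sql_team_39128cda.H.MP_451b27_lc.D
import Pool.Graph.R_pool_sql_team_39128cda.Lib.helper21_.CPred

set_option autoImplicit false

/-! `MP_451b27_lc`: the finite obstructions are computable. -/

namespace Pool.Agent.H314.SW

open Pool.Agent.Lib.helper21.CPred Pool.Agent.H.MP_451b27_lc
open Pool.Agent.Lib.helper21.While Pool.Agent.Lib.helper21.Mach Function

section comp

variable {α β : Type} [Primcodable α] [Primcodable β]

theorem cimp {p q : α → Prop} (hp : ComputablePred p) (hq : ComputablePred q) :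
    ComputablePred fun a => p a → q a :=
  (cor hp.not hq).of_eq fun a => by tauto

theorem ciff {p q : α → Prop} (hp : ComputablePred p) (hq : ComputablePred q) :
    ComputablePred fun a => (p a ↔ q a) :=
  (cand (cimp hp hq) (cimp hq hp)).of_eq fun a => by tauto

theorem cconst (P : Prop) : ComputablePred fun _ : α => P := by
  classical
  exact ComputablePred.computable_iff.2 ⟨fun _ => decide P, Computable.const _, by simp⟩

theorem cexf {ι : Type} [Finite ι] {p : ι → α → Prop} (hp : ∀ i, ComputablePred (p i)) :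
    ComputablePred fun a => ∃ i, p i a := by
  classical
  have := Fintype.ofFinite ι
  have : ∀ s : Finset ι, ComputablePred fun a => ∃ i ∈ s, p i a := by
    intro s
    induction s using Finset.induction_on with
    | empty => exact (cconst False).of_eq (by simp)
    | insert i s _ ih => exact (cor (hp i) ih).of_eq (by simp)
  exact (this Finset.univ).of_eq (by simp)

theorem cadd {f g : α → ℕ} (hf : Computable f) (hg : Computable g) :
    Computable fun a => f a + g a := Primrec.nat_add.to_comp.comp hf hg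

theorem cmul {f g : α → ℕ} (hf : Computable f) (hg : Computable g) :
    Computable fun a => f a * g a := Primrec.nat_mul.to_comp.comp hf hg

theorem cdiv {f g : α → ℕ} (hf : Computable f) (hg : Computable g) :
    Computable fun a => f a / g a := Primrec.nat_div.to_comp.comp hf hg

theorem cmod {f g : α → ℕ} (hf : Computable f) (hg : Computable g) :
    Computable fun a => f a % g a := Primrec.nat_mod.to_comp.comp hf hg

theorem cpow {f g : α → ℕ} (hf : Computable f) (hg : Computable g) :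
    Computable fun a => f a ^ g a :=
  (Primrec₂.unpaired'.1 Nat.Primrec.pow).to_comp.comp hf hg

/-- the list of all `g x`, `x < N`, `p x` -/
noncomputable def flt {γ : Type} (p : ℕ → Prop) (g : ℕ → γ) : ℕ → List γ
  | 0 => []
  | x + 1 => by classical exact if p x then g x :: flt p g x else flt p g x

omit [Primcodable β] in
theorem mem_flt {p : ℕ → Prop} {g : ℕ → β} {b : β} : ∀ {N : ℕ},
    b ∈ flt p g N ↔ ∃ x < N, p x ∧ g x = b
  | 0 => by simp [flt]
  | N + 1 => by
    rw [flt]
    split_ifs with h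
    · rw [List.mem_cons, mem_flt]
      constructor
      · rintro (rfl | ⟨x, h1, h2⟩)
        · exact ⟨N, by omega, h, rfl⟩
        · exact ⟨x, by omega, h2⟩
      · rintro ⟨x, h1, h2, h3⟩
        rcases Nat.lt_succ_iff_lt_or_eq.1 h1 with h1 | rfl
        · exact Or.inr ⟨x, h1, h2, h3⟩
        · exact Or.inl h3.symm
    · rw [mem_flt]
      constructor
      · rintro ⟨x, h1, h2⟩
        exact ⟨x, by omega, h2⟩
      · rintro ⟨x, h1, h2, h3⟩
        rcases Nat.lt_succ_iff_lt_or_eq.1 h1 with h1 | rfl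
        · exact ⟨x, h1, h2, h3⟩
        · exact (h h2).elim

theorem cflt {p : α → ℕ → Prop} (hp : ComputablePred fun z : α × ℕ => p z.1 z.2)
    {g : α → ℕ → β} (hg : Computable fun z : α × ℕ => g z.1 z.2) {N : α → ℕ}
    (hN : Computable N) : Computable fun a => flt (p a) (g a) (N a) := by
  obtain ⟨c, hc, e⟩ := ComputablePred.computable_iff.1 hp
  have h1 : Computable fun z : α × (ℕ × List β) => c (z.1, z.2.1) :=
    hc.comp (Computable.fst.pair (Computable.fst.comp Computable.snd))
  have h2 : Computable fun z : α × (ℕ × List β) => g z.1 z.2.1 :=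
    hg.comp (Computable.fst.pair (Computable.fst.comp Computable.snd))
  have h3 : Computable fun z : α × (ℕ × List β) => z.2.2 := Computable.snd.comp Computable.snd
  refine (Computable.nat_rec hN (Computable.const [])
    (h := fun a z => bif c (a, z.1) then g a z.1 :: z.2 else z.2)
    (Computable.cond h1 (Computable.list_cons.comp h2 h3) h3).to₂).of_eq fun a => ?_
  induction N a with
  | zero => rfl
  | succ n ih =>
    have h : p a n ↔ c (a, n) = true := by
      have := congrFun e (a, n)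
      simpa using this
    simp only [flt]
    rw [← ih]
    by_cases hc' : c (a, n) = true
    · rw [if_pos (h.2 hc'), hc']; rfl
    · rw [if_neg (fun h' => hc' (h.1 h'))]
      rw [Bool.not_eq_true] at hc'
      rw [hc']; rfl

end comp

/-- digits -/
def dig (k y j : ℕ) : ℕ := y / k ^ j % k

theorem dig_lt {k : ℕ} (hk : 0 < k) (y j : ℕ) : dig k y j < k := Nat.mod_lt _ hk

theorem exists_dig {k : ℕ} (f : ℕ → ℕ) (hf : ∀ a, f a < k) : ∀ D : ℕ,
    ∃ y < k ^ D, ∀ a < D, dig k y a = f a
  | 0 => ⟨0, by simp, by simp⟩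
  | D + 1 => by
    obtain ⟨y, h1, h2⟩ := exists_dig f hf D
    have hk : 0 < k := (Nat.zero_le _).trans_lt (hf 0)
    have hp : 0 < k ^ D := Nat.pow_pos hk
    refine ⟨y + k ^ D * f D, ?_, fun a ha => ?_⟩
    · have := hf D
      calc y + k ^ D * f D < k ^ D * (f D + 1) := by rw [mul_add, mul_one]; omega
        _ ≤ k ^ D * k := Nat.mul_le_mul_left _ this
        _ = k ^ (D + 1) := (pow_succ _ _).symm
    · rcases Nat.lt_succ_iff_lt_or_eq.1 ha with h | rfl
      · rw [← h2 a h, dig, dig]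
        obtain ⟨d, rfl⟩ : ∃ d, D = a + 1 + d := ⟨D - (a + 1), by omega⟩
        have : y + k ^ (a + 1 + d) * f (a + 1 + d) =
            y + k ^ a * (k * (k ^ d * f (a + 1 + d))) := by ring
        rw [this, Nat.add_mul_div_left _ _ (Nat.pow_pos hk), Nat.add_mul_mod_self_left]
      · rw [dig, Nat.add_mul_div_left _ _ hp, Nat.div_eq_of_lt h1, zero_add,
          Nat.mod_eq_of_lt (hf a)]

/-- bits -/
def bt (c a : ℕ) : Prop := dig 2 c a = 1

/-- adjacency of the graph with number `z.2` on `z.1` vertices -/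
def adj (z : ℕ × ℕ) (i j : ℕ) : Prop := i ≠ j ∧ (bt z.2 (i * z.1 + j) ∨ bt z.2 (j * z.1 + i))

def tyc (D : ℕ) (z : ℕ × ℕ) (e v : ℕ) : Prop :=
  ∃ y < z.1 ^ D, (∀ a < D, ∀ b < D, a ≠ b → adj z (dig z.1 y a) (dig z.1 y b)) ∧
    ∀ a < D, (adj z v (dig z.1 y a) ↔ a < e + 1)

section comp2

variable {α : Type} [Primcodable α]

theorem cdig {f g h : α → ℕ} (hf : Computable f) (hg : Computable g) (hh : Computable h) :
    Computable fun a => dig (f a) (g a) (h a) :=
  cmod (cdiv hg (cpow hf hh)) hf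

theorem cbt {f g : α → ℕ} (hf : Computable f) (hg : Computable g) :
    ComputablePred fun a => bt (f a) (g a) :=
  ceq (cdig (Computable.const 2) hf hg) (Computable.const 1)

theorem cadj {f : α → ℕ × ℕ} {g h : α → ℕ} (hf : Computable f) (hg : Computable g)
    (hh : Computable h) : ComputablePred fun a => adj (f a) (g a) (h a) :=
  cand (ceq hg hh).not (cor
    (cbt (Computable.snd.comp hf) (cadd (cmul hg (Computable.fst.comp hf)) hh))
    (cbt (Computable.snd.comp hf) (cadd (cmul hh (Computable.fst.comp hf)) hg)))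

theorem ctyc (D e : ℕ) {f : α → ℕ × ℕ} {g : α → ℕ} (hf : Computable f) (hg : Computable g) :
    ComputablePred fun a => tyc D (f a) e (g a) := by
  have F := Computable.fst (α := α) (β := ℕ)
  have S := Computable.snd (α := α) (β := ℕ)
  have F2 := Computable.fst (α := α × ℕ) (β := ℕ)
  have S2 := Computable.snd (α := α × ℕ) (β := ℕ)
  have F3 := Computable.fst (α := (α × ℕ) × ℕ) (β := ℕ)
  have S3 := Computable.snd (α := (α × ℕ) × ℕ) (β := ℕ)
  refine cex (p := fun a y => (∀ i < D, ∀ j < D, i ≠ j →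
    adj (f a) (dig (f a).1 y i) (dig (f a).1 y j)) ∧
    ∀ i < D, (adj (f a) (g a) (dig (f a).1 y i) ↔ i < e + 1)) (cand ?_ ?_)
    (cpow (Computable.fst.comp hf) (Computable.const D))
  · refine call (p := fun (z : α × ℕ) i => ∀ j < D, i ≠ j →
      adj (f z.1) (dig (f z.1).1 z.2 i) (dig (f z.1).1 z.2 j)) ?_ (Computable.const D)
    refine call (p := fun (z : (α × ℕ) × ℕ) j => z.2 ≠ j →
      adj (f z.1.1) (dig (f z.1.1).1 z.1.2 z.2) (dig (f z.1.1).1 z.1.2 j)) ?_ (Computable.const D)
    have h1 := hf.comp (F.comp (F2.comp F3))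
    have h2 := Computable.fst.comp h1
    exact cimp (ceq (S2.comp F3) S3).not (cadj h1
      (cdig h2 (S.comp (F2.comp F3)) (S2.comp F3)) (cdig h2 (S.comp (F2.comp F3)) S3))
  · refine call (p := fun (z : α × ℕ) i => (adj (f z.1) (g z.1) (dig (f z.1).1 z.2 i) ↔
      i < e + 1)) ?_ (Computable.const D)
    have h1 := hf.comp (F.comp F2)
    exact ciff (cadj h1 (hg.comp (F.comp F2)) (cdig (Computable.fst.comp h1) (S.comp F2) S2))
      (clt S2 (Computable.const _))

variable {Q : Type} {K m : ℕ} (en : Ty Q K ≃ Fin m)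

/-- the types of the vertices of the graph with number `z.2` on `z.1` vertices -/
def tc (z : ℕ × ℕ) (c : Ty Q K) (v : ℕ) : Prop := tyc (2 * m + 3) z (en c).val v

theorem ctc {f : α → ℕ × ℕ} {g : α → ℕ} (hf : Computable f) (hg : Computable g) (c : Ty Q K) :
    ComputablePred fun a => tc en (f a) c (g a) := ctyc _ _ hf hg

theorem cog {f : α → ℕ × ℕ} {g h : α → ℕ} (hf : Computable f) (hg : Computable g)
    (hh : Computable h) (s : Bool) :
    ComputablePred fun a => og (tc en (f a)) (adj (f a)) s (g a) (h a) :=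
  cand (ctc en hf hg _) (cand (ctc en hf hh _) (cadj hf hg hh))

theorem csc {f : α → ℕ × ℕ} {g h : α → ℕ} (hf : Computable f) (hg : Computable g)
    (hh : Computable h) (s : Bool) :
    ComputablePred fun a => sc (tc en (f a)) (adj (f a)) s (g a) (h a) :=
  cexf fun _ => cand (ctc en hf hg _) (cand (ctc en hf hh _) (cadj hf hg hh))

theorem cst {f : α → ℕ × ℕ} {g h : α → ℕ} (hf : Computable f) (hg : Computable g)
    (hh : Computable h) (c : Col Q K) :
    ComputablePred fun a => st (tc en (f a)) (adj (f a)) c (g a) (h a) :=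
  cand (cexf fun _ => ctc en hf hg _) (cand (ctc en hf hh _) (cadj hf hg hh))

variable (r0 : Fin K)

/-- the instance `n` of the axiom for the input, for the graph with number `z.2` on `z.1`
vertices -/
def chk (n : ℕ) (z : ℕ × ℕ) : Prop := ∀ x < z.1, ∀ o < z.1, ∀ o' < z.1, ∀ w < z.1,
  ∀ y < z.1 ^ (n + 1), PhiI r0 n (tc en z) (adj z) x o o' w (dig z.1 y)

theorem cphi {nn : α → ℕ} {f : α → ℕ × ℕ} {x o o' w y : α → ℕ} (hn : Computable nn)
    (hf : Computable f) (hx : Computable x) (ho : Computable o) (ho' : Computable o')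
    (hw : Computable w) (hy : Computable y) : ComputablePred fun a =>
      PhiI r0 (nn a) (tc en (f a)) (adj (f a)) (x a) (o a) (o' a) (w a) (dig (f a).1 (y a)) := by
  have F := Computable.fst (α := α) (β := ℕ)
  have S := Computable.snd (α := α) (β := ℕ)
  have hk := Computable.fst.comp hf
  refine cimp (cog en hf ho hx true) (cimp ?_ (cand (cimp ?_ ?_) (cimp ?_ ?_)))
  · refine call (p := fun a j => sc (tc en (f a)) (adj (f a)) false (dig (f a).1 (y a) j)
      (dig (f a).1 (y a) (j + 1))) ?_ hn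
    exact csc en (hf.comp F) (cdig (hk.comp F) (hy.comp F) S)
      (cdig (hk.comp F) (hy.comp F) (cadd S (Computable.const 1))) false
  · exact cst en hf (cdig hk hy hn) hw _
  · exact (cadj hf hx hw).not
  · exact cog en hf ho' (cdig hk hy (Computable.const 0)) false
  · refine call (p := fun a j => st (tc en (f a)) (adj (f a)) (.inr r0) (dig (f a).1 (y a) j)
      (w a) → adj (f a) (x a) (w a)) ?_ hn
    exact cimp (cst en (hf.comp F) (cdig (hk.comp F) (hy.comp F) S) (hw.comp F) _)
      (cadj (hf.comp F) (hx.comp F) (hw.comp F))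

theorem cchk {nn : α → ℕ} {f : α → ℕ × ℕ} (hn : Computable nn) (hf : Computable f) :
    ComputablePred fun a => chk en r0 (nn a) (f a) := by
  have F1 := Computable.fst (α := α) (β := ℕ)
  have S1 := Computable.snd (α := α) (β := ℕ)
  have F2 := Computable.fst (α := α × ℕ) (β := ℕ)
  have S2 := Computable.snd (α := α × ℕ) (β := ℕ)
  have F3 := Computable.fst (α := (α × ℕ) × ℕ) (β := ℕ)
  have S3 := Computable.snd (α := (α × ℕ) × ℕ) (β := ℕ)
  have F4 := Computable.fst (α := ((α × ℕ) × ℕ) × ℕ) (β := ℕ)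
  have S4 := Computable.snd (α := ((α × ℕ) × ℕ) × ℕ) (β := ℕ)
  have F5 := Computable.fst (α := (((α × ℕ) × ℕ) × ℕ) × ℕ) (β := ℕ)
  have S5 := Computable.snd (α := (((α × ℕ) × ℕ) × ℕ) × ℕ) (β := ℕ)
  have hk := Computable.fst.comp hf
  refine call (p := fun a x => ∀ o < (f a).1, ∀ o' < (f a).1, ∀ w < (f a).1,
    ∀ y < (f a).1 ^ (nn a + 1), PhiI r0 (nn a) (tc en (f a)) (adj (f a)) x o o' w
      (dig (f a).1 y)) ?_ hk
  refine call (p := fun (a : α × ℕ) o => ∀ o' < (f a.1).1, ∀ w < (f a.1).1,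
    ∀ y < (f a.1).1 ^ (nn a.1 + 1), PhiI r0 (nn a.1) (tc en (f a.1)) (adj (f a.1)) a.2 o o' w
      (dig (f a.1).1 y)) ?_ (hk.comp F1)
  refine call (p := fun (a : (α × ℕ) × ℕ) o' => ∀ w < (f a.1.1).1,
    ∀ y < (f a.1.1).1 ^ (nn a.1.1 + 1), PhiI r0 (nn a.1.1) (tc en (f a.1.1)) (adj (f a.1.1))
      a.1.2 a.2 o' w (dig (f a.1.1).1 y)) ?_ (hk.comp (F1.comp F2))
  refine call (p := fun (a : ((α × ℕ) × ℕ) × ℕ) w =>
    ∀ y < (f a.1.1.1).1 ^ (nn a.1.1.1 + 1), PhiI r0 (nn a.1.1.1) (tc en (f a.1.1.1))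
      (adj (f a.1.1.1)) a.1.1.2 a.1.2 a.2 w (dig (f a.1.1.1).1 y)) ?_
    (hk.comp (F1.comp (F2.comp F3)))
  refine call (p := fun (a : (((α × ℕ) × ℕ) × ℕ) × ℕ) y =>
    PhiI r0 (nn a.1.1.1.1) (tc en (f a.1.1.1.1))
      (adj (f a.1.1.1.1)) a.1.1.1.2 a.1.1.2 a.1.2 a.2 (dig (f a.1.1.1.1).1 y)) ?_
    (cpow (hk.comp (F1.comp (F2.comp (F3.comp F4))))
      (cadd (hn.comp (F1.comp (F2.comp (F3.comp F4)))) (Computable.const 1)))
  exact cphi en r0 (hn.comp (F1.comp (F2.comp (F3.comp (F4.comp F5)))))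
    (hf.comp (F1.comp (F2.comp (F3.comp (F4.comp F5)))))
    (S1.comp (F2.comp (F3.comp (F4.comp F5)))) (S2.comp (F3.comp (F4.comp F5)))
    (S3.comp (F4.comp F5)) (S4.comp F5) S5

end comp2

/-- the list of the ordered pairs of the graph with number `c` on `k` vertices -/
noncomputable def edges (z : ℕ × ℕ) : List (ℕ × ℕ) :=
  flt (fun a => bt z.2 a) (fun a => (a / z.1, a % z.1)) (z.1 * z.1)

theorem mem_edges {z : ℕ × ℕ} {i j : ℕ} (hi : i < z.1) (hj : j < z.1) :
    (i, j) ∈ edges z ↔ bt z.2 (i * z.1 + j) := by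
  have hk : 0 < z.1 := by omega
  rw [edges, mem_flt]
  constructor
  · rintro ⟨a, -, h1, h2⟩
    rw [Prod.mk.injEq] at h2
    rw [← h2.1, ← h2.2, mul_comm, Nat.div_add_mod]
    exact h1
  · intro h
    refine ⟨i * z.1 + j, ?_, h, ?_⟩
    · calc i * z.1 + j < (i + 1) * z.1 := by rw [add_mul]; omega
        _ ≤ z.1 * z.1 := Nat.mul_le_mul_right _ hi
    · rw [Prod.mk.injEq, mul_comm, Nat.mul_add_div hk, Nat.div_eq_of_lt hj, add_zero,
        Nat.mul_add_mod, Nat.mod_eq_of_lt hj]
      exact ⟨rfl, rfl⟩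

theorem cedges {α : Type} [Primcodable α] {f : α → ℕ × ℕ} (hf : Computable f) :
    Computable fun a => edges (f a) := by
  have F := Computable.fst (α := α) (β := ℕ)
  have S := Computable.snd (α := α) (β := ℕ)
  have hk := Computable.fst.comp hf
  refine cflt (p := fun a x => bt (f a).2 x) (g := fun a x => (x / (f a).1, x % (f a).1)) ?_ ?_
    (cmul hk hk)
  · exact cbt (Computable.snd.comp (hf.comp F)) S
  · exact (cdiv S (hk.comp F)).pair (cmod S (hk.comp F))

/-- every graph on `k` vertices has a number -/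
theorem exists_num {k : ℕ} (G : SimpleGraph (Fin k)) : ∃ c < 2 ^ (k * k),
    ∀ i j : Fin k, G.Adj i j ↔ adj (k, c) i j := by
  classical
  obtain ⟨c, h1, h2⟩ := exists_dig (k := 2)
    (fun a => if h : a / k < k ∧ a % k < k then
      (if G.Adj ⟨a / k, h.1⟩ ⟨a % k, h.2⟩ then 1 else 0) else 0)
    (fun a => by split_ifs <;> simp) (k * k)
  have key : ∀ i j : Fin k, bt c (i * k + j) ↔ G.Adj i j := by
    intro i j
    have hk : 0 < k := (Nat.zero_le _).trans_lt i.2
    have hlt : i * k + j < k * k := by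
      calc (i : ℕ) * k + j < (i + 1) * k := by have := j.2; rw [add_mul]; omega
        _ ≤ k * k := Nat.mul_le_mul_right _ i.2
    have e1 : (i * k + j) / k = i := by
      rw [mul_comm, Nat.mul_add_div hk, Nat.div_eq_of_lt j.2, add_zero]
    have e2 : (i * k + j) % k = j := by
      rw [mul_comm, Nat.mul_add_mod, Nat.mod_eq_of_lt j.2]
    rw [bt, h2 _ hlt, dif_pos ⟨by rw [e1]; exact i.2, by rw [e2]; exact j.2⟩]
    simp only [e1, e2]
    simp
  refine ⟨c, h1, fun i j => ?_⟩
  rw [adj]
  simp only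
  rw [key i j, key j i, G.adj_comm j i, or_self]
  exact ⟨fun h => ⟨fun e => h.ne (Fin.ext e), h⟩, fun h => h.2⟩

section link

variable {Q : Type} {K m : ℕ} {en : Ty Q K ≃ Fin m} {z : ℕ × ℕ} {G : SimpleGraph (Fin z.1)}
  (hG : ∀ i j : Fin z.1, G.Adj i j ↔ adj z i j)

include hG

theorem typ_iff_tc (c : Ty Q K) (v : Fin z.1) : typ en G c v ↔ tc en z c v := by
  have hk : 0 < z.1 := (Nat.zero_le _).trans_lt v.2
  constructor
  · rintro ⟨f, h1, h2⟩
    obtain ⟨y, hy, h3⟩ := exists_dig (k := z.1)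
      (fun a => if h : a < 2 * m + 3 then (f ⟨a, h⟩).val else 0)
      (fun a => by split_ifs; exacts [Fin.is_lt _, hk]) (2 * m + 3)
    have h4 : ∀ a (h : a < 2 * m + 3), dig z.1 y a = (f ⟨a, h⟩).val := fun a h => by
      rw [h3 a h, dif_pos h]
    refine ⟨y, hy, fun a ha b hb hab => ?_, fun a ha => ?_⟩
    · rw [h4 a ha, h4 b hb, ← hG]
      exact h1 _ _ (fun e => hab (congrArg Fin.val e))
    · rw [h4 a ha, ← hG]
      exact h2 ⟨a, ha⟩
  · rintro ⟨y, -, h1, h2⟩
    refine ⟨fun a => ⟨dig z.1 y a, dig_lt hk _ _⟩, fun a b hab => ?_, fun a => ?_⟩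
    · rw [hG]
      exact h1 a a.2 b b.2 (fun e => hab (Fin.ext e))
    · rw [hG]
      exact h2 a a.2

theorem goodI_iff {r0 : Fin K} {n : ℕ} : GoodI en r0 n G ↔ chk en r0 n z := by
  constructor
  · intro h x hx o ho o' ho' w hw y _
    have hk : 0 < z.1 := (Nat.zero_le _).trans_lt hx
    refine PhiI.tr (P := fun u => u < z.1) (g := fun u => if h : u < z.1 then (⟨u, h⟩ : Fin z.1)
      else ⟨0, hk⟩) (t' := typ en G) (e' := G.Adj) (v' := fun j => ⟨dig z.1 y j, dig_lt hk _ _⟩)
      (fun c u hu hc => ?_) (fun u v hu hv => ?_) hx ho ho' hw (fun j _ => dig_lt hk _ _)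
      (fun j _ => ?_) (h _ _ _ _ _)
    · rw [dif_pos hu]
      exact (typ_iff_tc hG c ⟨u, hu⟩).2 hc
    · rw [dif_pos hu, dif_pos hv, hG]
    · rw [dif_pos (dig_lt hk _ _)]
  · intro h x o o' w v
    obtain ⟨y, hy, h3⟩ := exists_dig (k := z.1) (fun a => (v a).val) (fun a => (v a).2) (n + 1)
    exact PhiI.tr (P := fun _ => True) (g := Fin.val) (t' := tc en z) (e' := adj z)
      (v' := dig z.1 y) (fun c u _ hc => (typ_iff_tc hG c u).1 hc) (fun u v _ _ => hG u v)
      trivial trivial trivial trivial (fun _ _ => trivial) (fun j hj => h3 j (by omega))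
      (h x x.2 o o.2 o' o'.2 w w.2 y hy)

end link

end Pool.Agent.H314.SW
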